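import Pool.Agent.Lib.MP_07117b_nt_h64.Defs

/-!
# Labels of torsor fibrations: calculus, and translation to `Gam`
-/

set_option linter.unusedSectionVars false

namespace Pool.Agent.Arb.S2

/-- `p : X → Y` is a surjective `G`-equivariant map whose fibres are torsors under the additive
group `A`, acting on `X` and commuting with `G`. -/
structure IsTor (G A : Type*) [Group G] [AddCommGroup A] {X Y : Type*} [MulAction G X]
    [MulAction G Y] [AddAction A X] (p : X → Y) : Prop where
  equiv : ∀ (g : G) (x : X), p (g • x) = g • p x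
  comm : ∀ (g : G) (a : A) (x : X), g • (a +ᵥ x) = a +ᵥ g • x
  vadd : ∀ (a : A) (x : X), p (a +ᵥ x) = p x
  trans : ∀ x x' : X, p x = p x' → ∃ a : A, x' = a +ᵥ x
  free : ∀ (a : A) (x : X), a +ᵥ x = x → a = 0
  surj : Function.Surjective p

/-- `g` acts on the fibre over `u` as the translation by `a`. -/
def Lab {G A : Type*} [Group G] [AddCommGroup A] {X Y : Type*} [MulAction G X] [AddAction A X]
    (p : X → Y) (g : G) (u : Y) (a : A) : Prop :=
  ∀ x : X, p x = u → g • x = a +ᵥ x

/-- `g` acts trivially on `X`. -/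
def Fix {G : Type*} [Group G] (X : Type*) [MulAction G X] (g : G) : Prop := ∀ x : X, g • x = x

theorem Fix.one {G X : Type*} [Group G] [MulAction G X] : Fix X (1 : G) := fun x => one_smul _ x

theorem Fix.mul {G X : Type*} [Group G] [MulAction G X] {g h : G} (hg : Fix X g) (hh : Fix X h) :
    Fix X (g * h) := fun x => by rw [mul_smul, hh x, hg x]

theorem Fix.inv {G X : Type*} [Group G] [MulAction G X] {g : G} (hg : Fix X g) :
    Fix X g⁻¹ := fun x => by rw [inv_smul_eq_iff, hg x]

theorem Fix.conj {G X : Type*} [Group G] [MulAction G X] {g : G} (hg : Fix X g) (k : G) :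
    Fix X (k * g * k⁻¹) := fun x => by
  rw [mul_smul, mul_smul, hg, smul_inv_smul]

section

variable {G A : Type*} [Group G] [AddCommGroup A] {X Y : Type*} [MulAction G X] [MulAction G Y]
  [AddAction A X] {p : X → Y}

theorem Lab.exists (hp : IsTor G A p) {g : G} {u : Y} (h : g • u = u) :
    ∃ a : A, Lab p g u a := by
  obtain ⟨x, rfl⟩ := hp.surj u
  obtain ⟨a, ha⟩ := hp.trans x (g • x) (by rw [hp.equiv, h])
  refine ⟨a, fun y hy => ?_⟩
  obtain ⟨b, rfl⟩ := hp.trans x y hy.symm
  rw [hp.comm, ha, vadd_vadd, vadd_vadd, add_comm]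

theorem Lab.unique (hp : IsTor G A p) {g : G} {u : Y} {a b : A} (ha : Lab p g u a)
    (hb : Lab p g u b) : a = b := by
  obtain ⟨x, rfl⟩ := hp.surj u
  have h1 : a +ᵥ x = b +ᵥ x := by rw [← ha x rfl, ← hb x rfl]
  have h2 : (-b + a) +ᵥ x = x := by rw [← vadd_vadd, h1, vadd_vadd, neg_add_cancel, zero_vadd]
  have h3 := hp.free _ _ h2
  exact (neg_add_eq_zero.mp h3).symm

theorem Lab.smul_eq (hp : IsTor G A p) {g : G} {u : Y} {a : A} (h : Lab p g u a) : g • u = u := by
  obtain ⟨x, rfl⟩ := hp.surj u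
  rw [← hp.equiv, h x rfl, hp.vadd]

theorem Lab.mul (hp : IsTor G A p) {g h : G} {u : Y} {a b : A} (ha : Lab p g u a)
    (hb : Lab p h u b) : Lab p (g * h) u (a + b) := by
  intro x hx
  rw [mul_smul, hb x hx, hp.comm, ha x hx, vadd_vadd, add_comm]

theorem Lab.inv (hp : IsTor G A p) {g : G} {u : Y} {a : A} (ha : Lab p g u a) :
    Lab p g⁻¹ u (-a) := by
  intro x hx
  rw [inv_smul_eq_iff, hp.comm, ha x hx, vadd_vadd, neg_add_cancel, zero_vadd]

theorem Lab.pow (hp : IsTor G A p) {g : G} {u : Y} {a : A} (ha : Lab p g u a) (n : ℕ) :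
    Lab p (g ^ n) u (n • a) := by
  induction n with
  | zero =>
    intro x _
    rw [pow_zero, one_smul, zero_smul, zero_vadd]
  | succ n ih =>
    rw [pow_succ, succ_nsmul]
    exact ih.mul hp ha

theorem Lab.conj (hp : IsTor G A p) {g : G} {u : Y} {a : A} (ha : Lab p g u a) (k : G) :
    Lab p (k * g * k⁻¹) (k • u) a := by
  intro x hx
  have h1 : p (k⁻¹ • x) = u := by rw [hp.equiv, hx, inv_smul_smul]
  rw [mul_smul, mul_smul, ha _ h1, hp.comm, smul_inv_smul]

/-- conjugation, with the point given -/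
theorem Lab.conj' (hp : IsTor G A p) {g : G} {u : Y} {a : A} (k : G)
    (ha : Lab p g (k⁻¹ • u) a) : Lab p (k * g * k⁻¹) u a := by
  have := ha.conj hp k
  rwa [smul_inv_smul] at this

end

/-! ### Translation to the shared definitions -/

section

variable {G A X Y : Type*} [Group G] [AddCommGroup A] [MulAction G X] [MulAction G Y]
    [AddAction A X] {p : X → Y}

theorem isTor_of_fib (h : Fib G A X Y p) : IsTor G A p :=
  ⟨h.equiv, h.comm, h.fib, h.trans, h.free, h.surj⟩

theorem of_gam (h : Fib G A X Y p) {γ : Y → A} (hγ : γ ∈ Gam G p) :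
    ∃ g : G, Fix Y g ∧ ∀ u, Lab p g u (γ u) := by
  obtain ⟨g, hg⟩ := hγ
  refine ⟨g, fun y => ?_, fun u x hx => ?_⟩
  · obtain ⟨x, rfl⟩ := h.surj y
    rw [← h.equiv, hg, h.fib]
  · rw [hg, hx]

theorem to_gam (h : Fib G A X Y p) {g : G} (hg : Fix Y g) :
    ∃ γ ∈ Gam G (A := A) p, ∀ (u : Y) (a : A), Lab p g u a → γ u = a := by
  have h' := isTor_of_fib h
  choose γ hγ using fun u => Lab.exists h' (hg u)
  exact ⟨γ, ⟨g, fun x => hγ (p x) x rfl⟩, fun u a ha => Lab.unique h' (hγ u) ha⟩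

end

end Pool.Agent.Arb.S2
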