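import Pool.Agent.Lib.MP_07117b_nt_h41.TR
import Pool.Agent.Lib.MP_07117b_nt_h11.Torsor

/-!
# Row BASE: the base level of the tower
-/

namespace Pool.Agent.Arb

open Cst S2

theorem ω3' {F : Type*} [Field F] (c : Cst F) : c.ω ^ 3 = 1 := by
  linear_combination (c.ω - 1) * c.hω

theorem prim' {F : Type*} [Field F] (c : Cst F) : IsPrimitiveRoot c.ζ 13 := by
  have hp : Nat.Prime 13 := by norm_num
  have : Fact (Nat.Prime 13) := ⟨hp⟩
  have := orderOf_eq_prime c.hζ c.hζ1
  rw [← this]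
  exact IsPrimitiveRoot.orderOf _

/-- `∏ D (x η) = D (x ^ 13)` over the 13th roots of unity -/
theorem prod_D {F : Type*} [Field F] (c : Cst F) (x : F) :
    ∏ η ∈ Polynomial.nthRootsFinset 13 (1 : F), D (x * η) = D (x ^ 13) := by
  have hω := c.hω
  have h3 := ω3' c
  have e1 := IsPrimitiveRoot.pow_add_pow_eq_prod_add_mul c.ω x (n := 13) (by decide) (prim' c)
  have e2 := IsPrimitiveRoot.pow_add_pow_eq_prod_add_mul (c.ω ^ 2) x (n := 13) (by decide)
    (prim' c)
  have hD : ∀ y : F, D y = (c.ω + y) * (c.ω ^ 2 + y) := by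
    intro y
    rw [D]
    linear_combination (-y : F) * hω - h3
  have hω13 : c.ω ^ 13 = c.ω := by
    have e : c.ω ^ 13 = (c.ω ^ 3) ^ 4 * c.ω := by ring
    rw [e, h3, one_pow, one_mul]
  have hω26 : (c.ω ^ 2) ^ 13 = c.ω ^ 2 := by
    have e : (c.ω ^ 2) ^ 13 = (c.ω ^ 13) ^ 2 := by ring
    rw [e, hω13]
  have hD' := hD (x ^ 13)
  rw [hω13] at e1
  rw [hω26] at e2
  rw [hD', e1, e2, ← Finset.prod_mul_distrib]
  refine Finset.prod_congr rfl fun η _ => ?_
  rw [hD, mul_comm x η]

section key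

variable {K : Type*} [Field K] [CharZero K] (c0 : Cst K)


theorem mem_K {x : (AlgebraicClosure K)} (h : ∀ g : (AlgebraicClosure K) ≃ₐ[K] (AlgebraicClosure K), g x = x) : ∃ y : K, algebraMap K (AlgebraicClosure K) y = x := by
  have := (InfiniteGalois.mem_bot_iff_fixed (k := K) x).mpr h
  rwa [IntermediateField.mem_bot] at this

theorem key (e0 : K) (he13 : e0 ^ 13 = e0)
    (hX : ∀ w : (AlgebraicClosure K), 1 - 2 * (Cst.map c0 (algebraMap K (AlgebraicClosure K))).a * w ^ 3 ≠ 0 →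
      ((Cst.map c0 (algebraMap K (AlgebraicClosure K))).X (algebraMap K (AlgebraicClosure K) e0 * w) - algebraMap K (AlgebraicClosure K) e0 * (Cst.map c0 (algebraMap K (AlgebraicClosure K))).P w + 1) ^ 2 =
        D (algebraMap K (AlgebraicClosure K) e0 * (Cst.map c0 (algebraMap K (AlgebraicClosure K))).P w))
    (hfix : ∀ g : (AlgebraicClosure K) ≃ₐ[K] (AlgebraicClosure K), (∀ z ∈ (Cst.map c0 (algebraMap K (AlgebraicClosure K))).LS 0, g z = z) → ∀ w ∈ (Cst.map c0 (algebraMap K (AlgebraicClosure K))).MS (0 + 1),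
      (Cst.map c0 (algebraMap K (AlgebraicClosure K))).X (algebraMap K (AlgebraicClosure K) e0 * g w) = (Cst.map c0 (algebraMap K (AlgebraicClosure K))).X (algebraMap K (AlgebraicClosure K) e0 * w)) :
    ∃ y : K, y ^ 2 = D (e0 * c0.m) := by
  classical
  set e : (AlgebraicClosure K) := algebraMap K (AlgebraicClosure K) e0 with he
  obtain ⟨z0, hz0⟩ := IsAlgClosed.exists_pow_nat_eq ((Cst.map c0 (algebraMap K (AlgebraicClosure K))).m) (n := 13) (by norm_num)
  have hza : ∀ η : (AlgebraicClosure K), η ^ 13 = 1 → e * (z0 * η) = e * z0 * η := fun η _ => by ring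
  -- a child of each node
  choose W hW1 hW2 using fun z : (AlgebraicClosure K) => exists_P (c := (Cst.map c0 (algebraMap K (AlgebraicClosure K)))) z
  have hzL : ∀ η : (AlgebraicClosure K), η ^ 13 = 1 → z0 * η ∈ (Cst.map c0 (algebraMap K (AlgebraicClosure K))).LS 0 := by
    intro η hη
    show (z0 * η) ^ 13 = (Cst.map c0 (algebraMap K (AlgebraicClosure K))).m
    rw [mul_pow, hη, mul_one, hz0]
  have hWM : ∀ η : (AlgebraicClosure K), η ^ 13 = 1 → W (z0 * η) ∈ (Cst.map c0 (algebraMap K (AlgebraicClosure K))).MS (0 + 1) := by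
    intro η hη
    refine ⟨hW1 _, ?_⟩
    rw [hW2]
    exact hzL η hη
  have hη13 : ∀ η ∈ Polynomial.nthRootsFinset 13 (1 : (AlgebraicClosure K)), η ^ 13 = 1 := by
    intro η hη
    rwa [Polynomial.mem_nthRootsFinset (by norm_num)] at hη
  set Y : (AlgebraicClosure K) := ∏ η ∈ Polynomial.nthRootsFinset 13 (1 : (AlgebraicClosure K)),
    ((Cst.map c0 (algebraMap K (AlgebraicClosure K))).X (e * W (z0 * η)) - e * (z0 * η) + 1) with hY
  have hemul : e ^ 13 = e := by
    rw [he, ← map_pow, he13]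
  have hm : (Cst.map c0 (algebraMap K (AlgebraicClosure K))).m = algebraMap K (AlgebraicClosure K) c0.m := by
    show 2 * algebraMap K (AlgebraicClosure K) c0.ω + 1 - algebraMap K (AlgebraicClosure K) c0.a = _
    rw [Cst.m, map_sub, map_add, map_mul, map_one, map_ofNat]
  have hY2 : Y ^ 2 = algebraMap K (AlgebraicClosure K) (D (e0 * c0.m)) := by
    rw [hY, ← Finset.prod_pow]
    have h1 : ∀ η ∈ Polynomial.nthRootsFinset 13 (1 : (AlgebraicClosure K)),
        ((Cst.map c0 (algebraMap K (AlgebraicClosure K))).X (e * W (z0 * η)) - e * (z0 * η) + 1) ^ 2 = D (e * z0 * η) := by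
      intro η hη
      have h2 := hX (W (z0 * η)) (hW1 _)
      rw [hW2] at h2
      rw [h2, hza η (hη13 η hη)]
    rw [Finset.prod_congr rfl h1, prod_D (Cst.map c0 (algebraMap K (AlgebraicClosure K))), mul_pow, hz0, hemul, hm, he, D, D, map_add, map_sub,
      map_pow, map_mul, map_one]
  have hgY : ∀ g : (AlgebraicClosure K) ≃ₐ[K] (AlgebraicClosure K), g Y = Y ∨ g Y = -Y := by
    intro g
    have h1 : (g Y) ^ 2 = Y ^ 2 := by
      rw [← map_pow, hY2, AlgEquiv.commutes]
    exact sq_eq_sq_iff_eq_or_eq_neg.mp h1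
  have hfixY : ∀ g : (AlgebraicClosure K) ≃ₐ[K] (AlgebraicClosure K), (∀ z ∈ (Cst.map c0 (algebraMap K (AlgebraicClosure K))).LS 0, g z = z) → g Y = Y := by
    intro g hg
    rw [hY, map_prod]
    refine Finset.prod_congr rfl fun η hη => ?_
    have h13 := hη13 η hη
    have h1 : g ((Cst.map c0 (algebraMap K (AlgebraicClosure K))).X (e * W (z0 * η))) = (Cst.map c0 (algebraMap K (AlgebraicClosure K))).X (e * g (W (z0 * η))) := by
      have h2 := b_X (c := (Cst.map c0 (algebraMap K (AlgebraicClosure K)))) (g : (AlgebraicClosure K) ≃+* (AlgebraicClosure K)) (by exact g.commutes c0.a) (e * W (z0 * η))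
      have h3 : (g : (AlgebraicClosure K) ≃+* (AlgebraicClosure K)) (e * W (z0 * η)) = e * g (W (z0 * η)) := by
        show g (e * W (z0 * η)) = _
        rw [map_mul, he, g.commutes]
      rw [h3] at h2
      exact h2
    rw [map_add, map_sub, h1, map_mul, map_one, hg _ (hzL η h13), hfix g hg _ (hWM η h13), he,
      g.commutes]
  -- the 13th power of any `g` fixes `L_0`
  have hpow : ∀ (g : (AlgebraicClosure K) ≃ₐ[K] (AlgebraicClosure K)), ∀ z ∈ (Cst.map c0 (algebraMap K (AlgebraicClosure K))).LS 0, (g ^ 13) z = z := by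
    intro g z hz
    have hzm : z ^ 13 = (Cst.map c0 (algebraMap K (AlgebraicClosure K))).m := hz
    have hz00 : z ≠ 0 := (LS_ne hz).1
    have h1 : (g z / z) ^ 13 = 1 := by
      rw [div_pow, ← map_pow, hzm, hm, g.commutes, ← hm, div_self]
      rw [← hzm]
      exact pow_ne_zero _ hz00
    obtain ⟨l, -, h2⟩ := (prim' (Cst.map c0 (algebraMap K (AlgebraicClosure K)))).eq_pow_of_pow_eq_one h1
    have hgz : g z = (Cst.map c0 (algebraMap K (AlgebraicClosure K))).ζ ^ l * z := by
      rw [h2, div_mul_cancel₀ _ hz00]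
    have hgζ : g (Cst.map c0 (algebraMap K (AlgebraicClosure K))).ζ = (Cst.map c0 (algebraMap K (AlgebraicClosure K))).ζ := g.commutes c0.ζ
    have hn : ∀ n : ℕ, (g ^ n) z = (Cst.map c0 (algebraMap K (AlgebraicClosure K))).ζ ^ (l * n) * z := by
      intro n
      induction n with
      | zero => simp
      | succ n ih =>
        rw [pow_succ', AlgEquiv.mul_apply, ih, map_mul, map_pow, hgζ, hgz]
        ring
    rw [hn 13, pow_mul', (Cst.map c0 (algebraMap K (AlgebraicClosure K))).hζ, one_pow, one_mul]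
  have hall : ∀ g : (AlgebraicClosure K) ≃ₐ[K] (AlgebraicClosure K), g Y = Y := by
    intro g
    rcases hgY g with h | h
    · exact h
    · have hn : ∀ n : ℕ, (g ^ n) Y = (-1) ^ n * Y := by
        intro n
        induction n with
        | zero => simp
        | succ n ih =>
          rw [pow_succ', AlgEquiv.mul_apply, ih, map_mul, map_pow, map_neg, map_one, h]
          ring
      have h13 := hn 13
      rw [hfixY _ (hpow g)] at h13
      have h0 : Y = 0 := by
        have h2 : (2 : (AlgebraicClosure K)) * Y = 0 := by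
          have h4 : ((-1 : (AlgebraicClosure K))) ^ 13 = -1 := by norm_num
          rw [h4] at h13
          linear_combination h13
        rcases mul_eq_zero.mp h2 with h5 | h5
        · norm_num at h5
        · exact h5
      rw [h0, map_zero]
  obtain ⟨y, hy⟩ := mem_K hall
  refine ⟨y, (algebraMap K (AlgebraicClosure K)).injective ?_⟩
  rw [map_pow, hy, hY2]

end key

theorem V4_cases : ∀ v s t : V4, v ≠ 0 → s ≠ 0 → s ≠ v → t = 0 ∨ t = v ∨ t = s ∨ t = v + s := by
  decide

theorem X_S10 {F : Type*} [Field F] [CharZero F] {c : Cst F} {w : F}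
    (h : 1 - 2 * c.a * w ^ 3 ≠ 0) : c.X (c.S (1, 0) w) = c.X w := by
  have e : c.S (1, 0) w = c.s0 w := by
    rw [Cst.S, if_neg (by decide), if_pos rfl]
  rw [e, X_s0 h]

theorem X_S11 {F : Type*} [Field F] [CharZero F] {c : Cst F} {w : F}
    (h : 1 - 2 * c.a * w ^ 3 ≠ 0) : c.X (c.ω * c.S (1, 1) w) = c.X (c.ω * w) := by
  have e : c.S (1, 1) w = c.ω ^ 2 * c.s0 (c.ω * w) := by
    rw [Cst.S, if_neg (by decide), if_neg (by decide), if_neg (by decide)]
  have h3 := ω3' c
  have e2 : c.ω * (c.ω ^ 2 * c.s0 (c.ω * w)) = c.s0 (c.ω * w) := by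
    linear_combination c.s0 (c.ω * w) * h3
  rw [e, e2]
  apply X_s0
  rwa [mul_pow, h3, one_mul]

/-- row BASE -/
theorem base {K : Type*} [Field K] [CharZero K] (c0 : Cst K)
    (h13 : ∀ y : K, y ^ 13 ≠ c0.m) (hD0 : ∀ y : K, y ^ 2 ≠ D c0.m)
    (hD2 : ∀ y : K, y ^ 2 ≠ D (c0.ω * c0.m)) (h6 : Root6 c0) :
    Tr (AlgebraicClosure K ≃ₐ[K] AlgebraicClosure K)
      ((c0.map (algebraMap K (AlgebraicClosure K))).MS 0) ∧
    PropA (AlgebraicClosure K ≃ₐ[K] AlgebraicClosure K)
      (pm (c0.map (algebraMap K (AlgebraicClosure K))) 0) ∧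
    PropC1 (AlgebraicClosure K ≃ₐ[K] AlgebraicClosure K)
      (pm (c0.map (algebraMap K (AlgebraicClosure K))) 0)
      (qm (c0.map (algebraMap K (AlgebraicClosure K))) 0) ∧
    PropC2 (AlgebraicClosure K ≃ₐ[K] AlgebraicClosure K)
      (pm (c0.map (algebraMap K (AlgebraicClosure K))) 0)
      (qm (c0.map (algebraMap K (AlgebraicClosure K))) 0) := by
  set c := c0.map (algebraMap K (AlgebraicClosure K)) with hc
  have hp : Fib (AlgebraicClosure K ≃ₐ[K] AlgebraicClosure K) (ZMod 13) (c.LS 0) (c.MS 0)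
    (pm c 0) := fib_p c0 0
  have hq : Fib (AlgebraicClosure K ≃ₐ[K] AlgebraicClosure K) V4 (c.MS (0 + 1)) (c.LS 0)
    (qm c 0) := fib_q c0 0
  have hp' := isTor_of_fib hp
  have hq' := isTor_of_fib hq
  have hsub : ∀ u u' : c.MS 0, u = u' := by
    intro u u'
    apply Subtype.ext
    have h1 : (u : AlgebraicClosure K) = c.m := u.2
    have h2 : (u' : AlgebraicClosure K) = c.m := u'.2
    rw [h1, h2]
  have hFixM : ∀ g : AlgebraicClosure K ≃ₐ[K] AlgebraicClosure K, Fix (c.MS 0) g :=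
    fun g u => hsub _ _
  have hm : c.m = algebraMap K (AlgebraicClosure K) c0.m := by
    show 2 * algebraMap K (AlgebraicClosure K) c0.ω + 1 -
      algebraMap K (AlgebraicClosure K) c0.a = _
    rw [Cst.m, map_sub, map_add, map_mul, map_one, map_ofNat]
  -- rotation
  have hA' : ∀ u : c.MS 0, ∃ g : AlgebraicClosure K ≃ₐ[K] AlgebraicClosure K,
      ∃ r : ZMod 13, r ≠ 0 ∧ Lab (pm c 0) g u r := by
    intro u
    obtain ⟨z, hz⟩ := hp.surj u
    obtain ⟨g, hg⟩ : ∃ g : AlgebraicClosure K ≃ₐ[K] AlgebraicClosure K,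
        g (z : AlgebraicClosure K) ≠ z := by
      by_contra hcon
      push Not at hcon
      obtain ⟨y, hy⟩ := mem_K hcon
      apply h13 y
      apply (algebraMap K (AlgebraicClosure K)).injective
      have h1 : (z : AlgebraicClosure K) ^ 13 = c.m := z.2
      rw [map_pow, hy, h1, hm]
    obtain ⟨r, hr⟩ := Lab.exists hp' (hFixM g u)
    refine ⟨g, r, ?_, hr⟩
    rintro rfl
    apply hg
    have h1 := hr z hz
    rw [zero_vadd] at h1
    have h2 := congrArg Subtype.val h1
    exact h2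
  have hA : PropA (AlgebraicClosure K ≃ₐ[K] AlgebraicClosure K) (pm c 0) := by
    intro u
    obtain ⟨g, r, hr, hl⟩ := hA' u
    obtain ⟨γ, hγ, h⟩ := to_gam hp (hFixM g)
    exact ⟨γ, hγ, by rw [h u r hl]; exact hr⟩
  have hTL : ∀ z z' : c.LS 0, ∃ g : AlgebraicClosure K ≃ₐ[K] AlgebraicClosure K,
      g • z = z' := by
    intro z z'
    obtain ⟨a, ha⟩ := hp.trans z z' (hsub _ _)
    obtain ⟨g, r, hr, hl⟩ := hA' (pm c 0 z)
    have hn : (a * r⁻¹).val • r = a := by
      have : Fact (Nat.Prime 13) := ⟨by norm_num⟩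
      rw [nsmul_eq_mul, ZMod.natCast_val, ZMod.cast_id', id, mul_assoc, inv_mul_cancel₀ hr,
        mul_one]
    refine ⟨g ^ (a * r⁻¹).val, ?_⟩
    rw [hl.pow hp' _ z rfl, hn, ← ha]
  obtain ⟨z0, g0, hg0, ⟨v, hv, hgv⟩, hgn⟩ := h6
  have hv0 : v ≠ 0 := by
    rcases hv with rfl | rfl <;> decide
  -- conjugates of `g0`
  have hconj : ∀ z' : c.LS 0, ∃ g : AlgebraicClosure K ≃ₐ[K] AlgebraicClosure K,
      Fix (c.LS 0) g ∧ Lab (qm c 0) g z' v ∧ ∀ z, z ≠ z' → Lab (qm c 0) g z (0 : V4) := by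
    intro z'
    obtain ⟨k, hk⟩ := hTL z0 z'
    have hF : Fix (c.LS 0) g0 := hg0
    have hl : Lab (qm c 0) g0 z0 v := fun w hw => hgv w hw
    have hl0 : ∀ z, z ≠ z0 → Lab (qm c 0) g0 z (0 : V4) := by
      intro z hz w hw
      rw [zero_vadd]
      exact hgn w (by rw [hw]; exact hz)
    refine ⟨k * g0 * k⁻¹, hF.conj k, ?_, fun z hz => Lab.conj' hq' k (hl0 _ ?_)⟩
    · rw [← hk]
      exact hl.conj hq' k
    · intro h
      apply hz
      rw [← hk, ← h, smul_inv_smul]
  refine ⟨fun u u' => ⟨1, hsub _ _⟩, hA, ?_, ?_⟩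
  · intro z s
    -- an element with a label outside `{0, v}`
    obtain ⟨g, hg, t, ht, ht0, htv⟩ : ∃ g : AlgebraicClosure K ≃ₐ[K] AlgebraicClosure K,
        Fix (c.LS 0) g ∧ ∃ t : V4, Lab (qm c 0) g z t ∧ t ≠ 0 ∧ t ≠ v := by
      by_contra hcon
      push Not at hcon
      have hcon' : ∀ (z' : c.LS 0) (g : AlgebraicClosure K ≃ₐ[K] AlgebraicClosure K),
          Fix (c.LS 0) g → ∀ t : V4, Lab (qm c 0) g z' t → t = 0 ∨ t = v := by
        intro z' g hg t ht
        obtain ⟨k, hk⟩ := hTL z z'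
        by_contra hne
        push Not at hne
        have h1 := hcon (k⁻¹ * g * k⁻¹⁻¹) (hg.conj k⁻¹) t (by
          have h2 := ht.conj hq' k⁻¹
          rwa [← hk, inv_smul_smul] at h2) hne.1
        exact hne.2 h1
      have hfix : ∀ g : AlgebraicClosure K ≃ₐ[K] AlgebraicClosure K, (∀ z ∈ c.LS 0, g z = z) →
          ∀ w ∈ c.MS (0 + 1), g w = w ∨ g w = c.S v w := by
        intro g hg w hw
        have hF : Fix (c.LS 0) g := fun z => Subtype.ext (hg z z.2)
        obtain ⟨t, ht⟩ := Lab.exists hq' (hF (qm c 0 ⟨w, hw⟩))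
        have h1 := ht ⟨w, hw⟩ rfl
        rcases hcon' _ g hF t ht with rfl | rfl
        · left
          rw [zero_vadd] at h1
          exact congrArg Subtype.val h1
        · right
          exact congrArg Subtype.val h1
      rcases hv with rfl | rfl
      · obtain ⟨y, hy⟩ := key c0 1 (one_pow _) (fun w hw => by
          rw [map_one, one_mul, one_mul]
          exact X_sq hw) (fun g hg w hw => by
          rw [map_one, one_mul, one_mul]
          rcases hfix g hg w hw with h | h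
          · rw [h]
          · rw [h]
            exact X_S10 hw.1)
        rw [one_mul] at hy
        exact hD0 y hy
      · have hω : algebraMap K (AlgebraicClosure K) c0.ω = c.ω := rfl
        obtain ⟨y, hy⟩ := key c0 c0.ω (by
          have e : c0.ω ^ 13 = (c0.ω ^ 3) ^ 4 * c0.ω := by ring
          rw [e, ω3' c0, one_pow, one_mul]) (fun w hw => by
          rw [hω]
          have h1 := X_sq (c := c) (w := c.ω * w) (by
            rwa [mul_pow, ω3' c, one_mul])
          rwa [P_ω] at h1) (fun g hg w hw => by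
          rw [hω]
          rcases hfix g hg w hw with h | h
          · rw [h]
          · rw [h]
            exact X_S11 hw.1)
        exact hD2 y hy
    obtain ⟨g', hg', hl', -⟩ := hconj z
    obtain ⟨g'', hg'', hl''⟩ : ∃ g : AlgebraicClosure K ≃ₐ[K] AlgebraicClosure K,
        Fix (c.LS 0) g ∧ Lab (qm c 0) g z s := by
      rcases V4_cases v t s hv0 ht0 htv with rfl | rfl | rfl | rfl
      · refine ⟨1, Fix.one, fun w _ => by rw [one_smul, zero_vadd]⟩
      · exact ⟨g', hg', hl'⟩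
      · exact ⟨g, hg, ht⟩
      · exact ⟨g' * g, hg'.mul hg, hl'.mul hq' ht⟩
    obtain ⟨δ, hδ, h⟩ := to_gam hq hg''
    exact ⟨δ, hδ, h z s hl'', fun z' hz' => absurd (hsub _ _) hz'⟩
  · intro z z' _ hne
    obtain ⟨g, hg, hl, hl0⟩ := hconj z'
    obtain ⟨δ, hδ, h⟩ := to_gam hq hg
    exact ⟨δ, hδ, h z 0 (hl0 z hne), by rw [h z' v hl]; exact hv0⟩

end Pool.Agent.Arb
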