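import Pool.Agent.Lib.MP_07117b_nt_h64.Defs

/-!
# Field facts at 3 for the disproof of `MP_07117b_nt`

`F1 = Q_3(ω, θ)` inside `PadicAlgCl 3`, `ω ^ 2 + ω + 1 = 0`, `θ ^ 3 = θ + 1`.
-/

namespace Pool.Agent.Arb.LF

open IntermediateField

/-! ### Ultrametric basics -/

section ultra

variable {F : Type*} [NormedField F] [IsUltrametricDist F]

theorem add_lt {x y : F} {r : ℝ} (hx : ‖x‖ < r) (hy : ‖y‖ < r) : ‖x + y‖ < r :=
  lt_of_le_of_lt (IsUltrametricDist.norm_add_le_max x y) (max_lt hx hy)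

theorem add_le {x y : F} {r : ℝ} (hx : ‖x‖ ≤ r) (hy : ‖y‖ ≤ r) : ‖x + y‖ ≤ r :=
  le_trans (IsUltrametricDist.norm_add_le_max x y) (max_le hx hy)

theorem sub_lt {x y : F} {r : ℝ} (hx : ‖x‖ < r) (hy : ‖y‖ < r) : ‖x - y‖ < r := by
  rw [sub_eq_add_neg]
  exact add_lt hx (by rwa [norm_neg])

theorem sub_le {x y : F} {r : ℝ} (hx : ‖x‖ ≤ r) (hy : ‖y‖ ≤ r) : ‖x - y‖ ≤ r := by
  rw [sub_eq_add_neg]
  exact add_le hx (by rwa [norm_neg])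

theorem mul_le_one {x y : F} (hx : ‖x‖ ≤ 1) (hy : ‖y‖ ≤ 1) : ‖x * y‖ ≤ 1 := by
  rw [norm_mul]
  exact mul_le_one₀ hx (norm_nonneg _) hy

theorem mul_lt_one_left {x y : F} (hx : ‖x‖ < 1) (hy : ‖y‖ ≤ 1) : ‖x * y‖ < 1 := by
  rw [norm_mul]
  exact mul_lt_one_of_nonneg_of_lt_one_left (norm_nonneg _) hx hy

theorem mul_lt_one_right {x y : F} (hx : ‖x‖ ≤ 1) (hy : ‖y‖ < 1) : ‖x * y‖ < 1 := by
  rw [mul_comm]
  exact mul_lt_one_left hy hx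

theorem pow_le_one' {x : F} (hx : ‖x‖ ≤ 1) (n : ℕ) : ‖x ^ n‖ ≤ 1 := by
  rw [norm_pow]
  exact pow_le_one₀ (norm_nonneg _) hx

/-- if `y` is close to `x` relative to the size of `y`, the norms agree -/
theorem norm_eq_of_sub_lt {x y : F} (h : ‖x - y‖ < ‖y‖) : ‖x‖ = ‖y‖ := by
  have h1 : x = (x - y) + y := by ring
  rw [h1, IsUltrametricDist.norm_add_eq_max_of_norm_ne_norm h.ne, max_eq_right h.le]

theorem norm_eq_one_of_sub_lt {x y : F} (h : ‖x - y‖ < 1) (hy : ‖y‖ = 1) : ‖x‖ = 1 := by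
  rw [norm_eq_of_sub_lt (by rwa [hy]), hy]

theorem norm_add_eq_left {x y : F} (h : ‖y‖ < ‖x‖) : ‖x + y‖ = ‖x‖ := by
  apply norm_eq_of_sub_lt
  rwa [add_sub_cancel_left]

theorem norm_add_eq_max {x y : F} (h : ‖x‖ ≠ ‖y‖) : ‖x + y‖ = max ‖x‖ ‖y‖ :=
  IsUltrametricDist.norm_add_eq_max_of_norm_ne_norm h

/-- product of factors of norm at most one has norm one: each factor has norm one -/
theorem eq_one_of_mul_eq_one {a b : ℝ} (ha0 : 0 ≤ a) (ha : a ≤ 1) (hb : b ≤ 1)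
    (h : a * b = 1) : a = 1 := by
  rcases lt_or_eq_of_le ha with h1 | h1
  · exfalso
    have : a * b ≤ a * 1 := mul_le_mul_of_nonneg_left hb ha0
    linarith
  · exact h1

theorem two_norm (h3 : ‖(3 : F)‖ < 1) : ‖(2 : F)‖ = 1 := by
  have h1 : ‖(4 : F)‖ = 1 := norm_eq_one_of_sub_lt (y := 1) (by norm_num; exact h3) norm_one
  have h2 : ‖(2 : F)‖ * ‖(2 : F)‖ = 1 := by
    rw [← norm_mul, ← h1]
    norm_num
  nlinarith [norm_nonneg (2 : F)]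

theorem natCast_norm_le (n : ℕ) : ‖(n : F)‖ ≤ 1 := IsUltrametricDist.norm_natCast_le_one F n

theorem thirteen_norm (h3 : ‖(3 : F)‖ < 1) : ‖(13 : F)‖ = 1 := by
  apply norm_eq_one_of_sub_lt (y := 1) _ norm_one
  have h1 : (13 : F) - 1 = 3 * ((4 : ℕ) : F) := by norm_num
  rw [h1]
  exact mul_lt_one_left h3 (natCast_norm_le 4)

/-! #### The element `θ` -/

variable {θ : F}

theorem theta_le (hθ : θ ^ 3 = θ + 1) : ‖θ‖ ≤ 1 := by
  by_contra hcon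
  push Not at hcon
  have h1 : ‖θ + 1‖ ≤ ‖θ‖ := add_le le_rfl (by rw [norm_one]; exact hcon.le)
  rw [← hθ, norm_pow] at h1
  have h2 : ‖θ‖ * 1 < ‖θ‖ * ‖θ‖ ^ 2 :=
    mul_lt_mul_of_pos_left (by nlinarith) (by linarith)
  nlinarith

theorem theta_norm (hθ : θ ^ 3 = θ + 1) : ‖θ‖ = 1 := by
  have h0 := theta_le hθ
  have h1 : ‖θ‖ * ‖(θ - 1) * (θ + 1)‖ = 1 := by
    rw [← norm_mul, ← norm_one (α := F)]
    congr 1
    linear_combination hθ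
  exact eq_one_of_mul_eq_one (norm_nonneg _) h0
    (mul_le_one (sub_le h0 (by rw [norm_one])) (add_le h0 (by rw [norm_one]))) h1

theorem theta13 (hθ : θ ^ 3 = θ + 1) : θ ^ 13 - 1 = 3 * (3 * θ ^ 2 + 4 * θ + 2) := by
  have h9 : θ ^ 9 = 3 * θ ^ 2 + 4 * θ + 2 := by
    have : θ ^ 9 = (θ ^ 3) ^ 3 := by ring
    rw [this, hθ]
    linear_combination hθ
  have h13 : θ ^ 13 = θ ^ 9 * θ ^ 3 * θ := by ring
  rw [h13, h9, hθ]
  linear_combination (3 * θ + 7) * hθ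

theorem theta_int (hθ : θ ^ 3 = θ + 1) : ‖3 * θ ^ 2 + 4 * θ + 2‖ ≤ 1 := by
  have h0 := theta_le hθ
  have h3 : ‖(3 : F)‖ ≤ 1 := by simpa using natCast_norm_le (F := F) 3
  have h4 : ‖(4 : F)‖ ≤ 1 := by simpa using natCast_norm_le (F := F) 4
  have h2 : ‖(2 : F)‖ ≤ 1 := by simpa using natCast_norm_le (F := F) 2
  exact add_le (add_le (mul_le_one h3 (pow_le_one' h0 2)) (mul_le_one h4 h0)) h2

theorem theta13_lt (h3 : ‖(3 : F)‖ < 1) (hθ : θ ^ 3 = θ + 1) : ‖θ ^ 13 - 1‖ < 1 := by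
  rw [theta13 hθ]
  exact mul_lt_one_left h3 (theta_int hθ)

/-- integral elements satisfying `|x ^ 27 - x| < 1` -/
def S27 (x : F) : Prop := ‖x‖ ≤ 1 ∧ ‖x ^ 27 - x‖ < 1

theorem cube_add (h3 : ‖(3 : F)‖ < 1) {u v : F} (hu : ‖u‖ ≤ 1) (hv : ‖v‖ ≤ 1) :
    ‖(u + v) ^ 3 - (u ^ 3 + v ^ 3)‖ < 1 := by
  have h1 : (u + v) ^ 3 - (u ^ 3 + v ^ 3) = 3 * (u * v * (u + v)) := by ring
  rw [h1]
  exact mul_lt_one_left h3 (mul_le_one (mul_le_one hu hv) (add_le hu hv))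

theorem cube_congr {u v : F} (hu : ‖u‖ ≤ 1) (hv : ‖v‖ ≤ 1) (h : ‖u - v‖ < 1) :
    ‖u ^ 3 - v ^ 3‖ < 1 := by
  have h1 : u ^ 3 - v ^ 3 = (u - v) * (u ^ 2 + u * v + v ^ 2) := by ring
  rw [h1]
  exact mul_lt_one_left h (add_le (add_le (pow_le_one' hu 2) (mul_le_one hu hv))
    (pow_le_one' hv 2))

theorem pow_congr {u v : F} (hu : ‖u‖ ≤ 1) (hv : ‖v‖ ≤ 1) (h : ‖u - v‖ < 1) (n : ℕ) :
    ‖u ^ n - v ^ n‖ < 1 := by
  induction n with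
  | zero => simp
  | succ n ih =>
    have h1 : u ^ (n + 1) - v ^ (n + 1) = (u ^ n - v ^ n) * u + v ^ n * (u - v) := by ring
    rw [h1]
    exact add_lt (mul_lt_one_left ih hu) (mul_lt_one_right (pow_le_one' hv n) h)

theorem pow27_add (h3 : ‖(3 : F)‖ < 1) {u v : F} (hu : ‖u‖ ≤ 1) (hv : ‖v‖ ≤ 1) :
    ‖(u + v) ^ 27 - (u ^ 27 + v ^ 27)‖ < 1 := by
  have huv := add_le hu hv
  have e1 := cube_add h3 hu hv
  have e2 : ‖((u + v) ^ 3) ^ 3 - (u ^ 9 + v ^ 9)‖ < 1 := by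
    have h1 := cube_congr (pow_le_one' huv 3) (add_le (pow_le_one' hu 3) (pow_le_one' hv 3)) e1
    have h2 := cube_add h3 (pow_le_one' hu 3) (pow_le_one' hv 3)
    have h4 := add_lt h1 h2
    convert h4 using 2
    ring
  have h1 := cube_congr (pow_le_one' (pow_le_one' huv 3) 3)
    (add_le (pow_le_one' hu 9) (pow_le_one' hv 9)) e2
  have h2 := cube_add h3 (pow_le_one' hu 9) (pow_le_one' hv 9)
  have h4 := add_lt h1 h2
  convert h4 using 2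
  ring

theorem S27.add (h3 : ‖(3 : F)‖ < 1) {u v : F} (hu : S27 u) (hv : S27 v) : S27 (u + v) := by
  refine ⟨add_le hu.1 hv.1, ?_⟩
  have h := add_lt (add_lt (pow27_add h3 hu.1 hv.1) hu.2) hv.2
  convert h using 2
  ring

theorem S27.mul {u v : F} (hu : S27 u) (hv : S27 v) : S27 (u * v) := by
  refine ⟨mul_le_one hu.1 hv.1, ?_⟩
  have h1 : (u * v) ^ 27 - u * v = (u ^ 27 - u) * v ^ 27 + u * (v ^ 27 - v) := by ring
  rw [h1]
  exact add_lt (mul_lt_one_left hu.2 (pow_le_one' hv.1 27)) (mul_lt_one_right hu.1 hv.2)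

theorem S27.of_lt {u : F} (hu : ‖u‖ < 1) : S27 u := by
  refine ⟨hu.le, sub_lt ?_ hu⟩
  have h1 : u ^ 27 = u * u ^ 26 := by ring
  rw [h1]
  exact mul_lt_one_left hu (pow_le_one' hu.le 26)

theorem S27_theta (h3 : ‖(3 : F)‖ < 1) (hθ : θ ^ 3 = θ + 1) : S27 θ := by
  refine ⟨theta_le hθ, ?_⟩
  have h1 : θ ^ 27 - θ = (θ ^ 13 - 1) * (θ * (θ ^ 13 + 1)) := by ring
  rw [h1]
  exact mul_lt_one_left (theta13_lt h3 hθ) (mul_le_one (theta_le hθ)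
    (add_le (pow_le_one' (theta_le hθ) 13) (by rw [norm_one])))

/-- an element of `S27` of norm one satisfies `|x ^ 26 - 1| < 1` -/
theorem S27.pow26 {u : F} (hu : S27 u) (h1 : ‖u‖ = 1) : ‖u ^ 26 - 1‖ < 1 := by
  have h := hu.2
  have e : u ^ 27 - u = u * (u ^ 26 - 1) := by ring
  rwa [e, norm_mul, h1, one_mul] at h

end ultra

end Pool.Agent.Arb.LF
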