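import Pool.Agent.Lib.MP_07117b_nt_h64.LocDefs
import Pool.Agent.Lib.MP_07117b_nt_h11.LocF1

/-!
# Row L1: norms of the constants and 13th roots of an `H`-type node
-/

namespace Pool.Agent.Arb

open LF

section

variable {Ω : Type*} [NormedField Ω] {c : Cst Ω} {B : Subgroup (Ω ≃+* Ω)}

theorem Loc3.inst (h : Loc3 c B) : IsUltrametricDist Ω :=
  IsUltrametricDist.isUltrametricDist_of_forall_norm_add_le_max_norm h.ultra

theorem Cst.ω3L {F : Type*} [Field F] (c : Cst F) : c.ω ^ 3 = 1 := by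
  linear_combination (c.ω - 1) * c.hω

theorem Cst.prim {F : Type*} [Field F] (c : Cst F) : IsPrimitiveRoot c.ζ 13 := by
  have hp : Nat.Prime 13 := by norm_num
  have : Fact (Nat.Prime 13) := ⟨hp⟩
  have := orderOf_eq_prime c.hζ c.hζ1
  rw [← this]
  exact IsPrimitiveRoot.orderOf _

theorem norm_one_of_pow {x : Ω} {n : ℕ} (hn : n ≠ 0) (h : ‖x ^ n‖ = 1) : ‖x‖ = 1 := by
  rw [norm_pow] at h
  exact (pow_eq_one_iff_of_nonneg (norm_nonneg _) hn).mp h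

theorem Loc3.three_lt (h : Loc3 c B) : ‖(3 : Ω)‖ < 1 := by
  rw [h.three]
  norm_num

theorem Loc3.norm_zeta (_h : Loc3 c B) : ‖c.ζ‖ = 1 :=
  norm_one_of_pow (n := 13) (by norm_num) (by rw [c.hζ, norm_one])

theorem Loc3.norm_omega (_h : Loc3 c B) : ‖c.ω‖ = 1 :=
  norm_one_of_pow (n := 3) (by norm_num) (by rw [c.ω3L, norm_one])

theorem Loc3.zeta_sub (h : Loc3 c B) {l : ℕ} (hl : ¬ 13 ∣ l) : ‖c.ζ ^ l - 1‖ = 1 := by
  have := h.inst
  have hζ := h.norm_zeta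
  -- reduce to `l % 13`
  have h1 : c.ζ ^ l = c.ζ ^ (l % 13) := pow_eq_pow_mod l c.hζ
  have hl0 : l % 13 ≠ 0 := fun h0 => hl (Nat.dvd_of_mod_eq_zero h0)
  have hl13 : l % 13 < 13 := Nat.mod_lt _ (by norm_num)
  obtain ⟨k, hk⟩ := Nat.exists_eq_succ_of_ne_zero hl0
  rw [h1, hk, norm_sub_rev]
  have hk12 : k ∈ Finset.range 12 := by
    rw [Finset.mem_range]
    omega
  have hprod := IsPrimitiveRoot.prod_one_sub_pow_eq_order (n := 12) (μ := c.ζ) c.prim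
  have h13 : ‖∏ k ∈ Finset.range 12, (1 - c.ζ ^ (k + 1))‖ = 1 := by
    rw [hprod]
    have : ((12 : ℕ) : Ω) + 1 = 13 := by norm_num
    rw [this]
    exact thirteen_norm h.three_lt
  rw [← Finset.mul_prod_erase _ _ hk12, norm_mul] at h13
  have hle : ∀ j : ℕ, ‖1 - c.ζ ^ (j + 1)‖ ≤ 1 := fun j =>
    sub_le (by rw [norm_one]) (pow_le_one' hζ.le _)
  refine eq_one_of_mul_eq_one (norm_nonneg _) (hle k) ?_ h13
  rw [norm_prod]
  exact Finset.prod_le_one (fun _ _ => norm_nonneg _) (fun j _ => hle j)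

theorem Loc3.zeta_add (h : Loc3 c B) {l : ℕ} (hl : ¬ 13 ∣ l) : ‖c.ζ ^ l + 1‖ = 1 := by
  have h1 := h.zeta_sub hl
  have h2 : ‖c.ζ ^ (2 * l) - 1‖ = 1 := h.zeta_sub (by omega)
  have h3 : c.ζ ^ (2 * l) - 1 = (c.ζ ^ l - 1) * (c.ζ ^ l + 1) := by ring
  rw [h3, norm_mul, h1, one_mul] at h2
  exact h2

/-- row L1a -/
theorem Loc3.norms (h : Loc3 c B) : ‖(2 : Ω)‖ = 1 ∧ ‖c.a‖ = 1 ∧ ‖c.ω‖ = 1 ∧ ‖c.ζ‖ = 1 ∧
    ‖c.a - 1‖ = 1 / 3 ∧ ‖c.a + 1‖ = 1 ∧ ‖1 - 2 * c.a‖ = 1 ∧ ‖1 + 2 * c.a‖ = 1 / 9 ∧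
    ‖1 - c.ω‖ ^ 2 = 1 / 3 ∧ ‖1 - c.ω ^ 2‖ ^ 2 = 1 / 3 ∧ ‖c.ω - c.ω ^ 2‖ ^ 2 = 1 / 3 ∧
    (∀ l : ℕ, ¬ 13 ∣ l → ‖c.ζ ^ l - 1‖ = 1 ∧ ‖c.ζ ^ l + 1‖ = 1) ∧
    HT B c.m ∧ ‖c.m + c.ω‖ ^ 2 = 1 / 27 := by
  have := h.inst
  have h3 := h.three_lt
  have h2 : ‖(2 : Ω)‖ = 1 := two_norm h3
  have ha := c.ha
  have hω := c.hω
  have ha1 := h.ha1
  have hna : ‖c.a‖ = 1 := norm_eq_one_of_sub_lt ha1 norm_one
  have hnω := h.norm_omega
  have hap : ‖c.a + 1‖ = 1 := by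
    apply norm_eq_one_of_sub_lt (y := 2) _ h2
    have e : c.a + 1 - 2 = c.a - 1 := by ring
    rwa [e]
  have ham : ‖c.a - 1‖ = 1 / 3 := by
    have e : (c.a - 1) * (c.a + 1) = -3 := by linear_combination ha
    have e2 := congrArg norm e
    rwa [norm_mul, hap, mul_one, norm_neg, h.three] at e2
  have hm2 : ‖1 - 2 * c.a‖ = 1 := by
    apply norm_eq_one_of_sub_lt (y := -1) _ (by rw [norm_neg, norm_one])
    have e : 1 - 2 * c.a - -1 = (c.a - 1) * (-2) := by ring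
    rw [e, norm_mul, norm_neg, h2, mul_one]
    exact ha1
  have hp2 : ‖1 + 2 * c.a‖ = 1 / 9 := by
    have e : (1 + 2 * c.a) * (1 - 2 * c.a) = 3 * 3 := by linear_combination (-4) * ha
    have e2 := congrArg norm e
    rw [norm_mul, hm2, mul_one, norm_mul, h.three] at e2
    rw [e2]
    norm_num
  have hw1 : ‖1 - c.ω‖ ^ 2 = 1 / 3 := by
    have e : (1 - c.ω) ^ 2 = -(3 * c.ω) := by linear_combination hω
    have e2 := congrArg norm e
    rwa [norm_pow, norm_neg, norm_mul, h.three, hnω, mul_one] at e2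
  have hw3 : ‖c.ω - c.ω ^ 2‖ ^ 2 = 1 / 3 := by
    have e : c.ω - c.ω ^ 2 = c.ω * (1 - c.ω) := by ring
    rw [e, norm_mul, hnω, one_mul, hw1]
  have hw2 : ‖1 - c.ω ^ 2‖ ^ 2 = 1 / 3 := by
    have e : 1 - c.ω ^ 2 = -(c.ω ^ 2 * (1 - c.ω)) := by linear_combination (1 - c.ω) * hω
    rw [e, norm_neg, norm_mul, norm_pow, hnω, one_pow, one_mul, hw1]
  have hr : ‖2 * c.ω + 1‖ ^ 2 = 1 / 3 := by
    have e : (2 * c.ω + 1) ^ 2 = -3 := by linear_combination 4 * hω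
    have e2 := congrArg norm e
    rwa [norm_pow, norm_neg, h.three] at e2
  have hw1lt : ‖1 - c.ω‖ < 1 := by nlinarith [norm_nonneg (1 - c.ω)]
  refine ⟨h2, hna, hnω, h.norm_zeta, ham, hap, hm2, hp2, hw1, hw2, hw3,
    fun l hl => ⟨h.zeta_sub hl, h.zeta_add hl⟩, ⟨?_, ?_⟩, ?_⟩
  · intro b hb
    rw [Cst.m, map_sub, map_add, map_mul, h.fa b hb, h.fω b hb, map_one, map_ofNat]
  · have e : c.m + 1 = (c.ω - 1) * 2 + (3 - (c.a - 1)) := by
      rw [Cst.m]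
      ring
    rw [e]
    refine add_lt ?_ (sub_lt h3 ha1)
    rw [norm_mul, h2, mul_one, norm_sub_rev]
    exact hw1lt
  · have e : (c.m + c.ω) * (c.a + 1) = 3 * (2 * c.ω + 1 + c.ω * (c.a - 1)) := by
      rw [Cst.m]
      linear_combination (-1 : Ω) * ha
    have hlt : ‖c.ω * (c.a - 1)‖ < ‖2 * c.ω + 1‖ := by
      rw [norm_mul, hnω, one_mul, ham]
      nlinarith [norm_nonneg (2 * c.ω + 1)]
    have e2 := congrArg norm e
    rw [norm_mul, hap, mul_one, norm_mul, h.three, norm_add_eq_left hlt] at e2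
    rw [e2, mul_pow, hr]
    norm_num

variable [IsAlgClosed Ω]

/-- the 13th roots of `z0 ^ 13` -/
theorem roots_eq (c : Cst Ω) {z0 z : Ω} (hz0 : z0 ≠ 0) (h : z ^ 13 = z0 ^ 13) :
    ∃ l < 13, z = c.ζ ^ l * z0 := by
  have h1 : (z / z0) ^ 13 = 1 := by
    rw [div_pow, h, div_self (pow_ne_zero _ hz0)]
  obtain ⟨l, hl, h2⟩ := c.prim.eq_pow_of_pow_eq_one h1
  exact ⟨l, hl, by rw [h2, div_mul_cancel₀ _ hz0]⟩

/-- row L1b: the 13th roots of an `H`-type node -/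
theorem Loc3.roots13 (h : Loc3 c B) {u : Ω} (hu : HT B u) : ∃ z0 : Ω, z0 ^ 13 = u ∧
    ‖z0 + 1‖ < 1 ∧ (∀ z : Ω, z ^ 13 = u → ∀ b ∈ B, b z = z) ∧
    (∀ z : Ω, z ^ 13 = u → z ≠ z0 → GT B z) ∧ (∀ i : ℕ, ‖z0 + c.ω ^ i‖ = ‖u + c.ω ^ i‖) := by
  have := h.inst
  have h3 := h.three_lt
  have hζ := h.norm_zeta
  have hω := h.norm_omega
  obtain ⟨-, -, -, -, -, -, -, -, hw1, -⟩ := h.norms
  have hw1lt : ‖1 - c.ω‖ < 1 := by nlinarith [norm_nonneg (1 - c.ω)]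
  have hun : ‖u‖ = 1 := by
    apply norm_eq_one_of_sub_lt (y := -1) _ (by rw [norm_neg, norm_one])
    rw [sub_neg_eq_add]
    exact hu.2
  -- the root near `-1`
  obtain ⟨z0, hz0, hz01⟩ : ∃ z0 : Ω, z0 ^ 13 = u ∧ ‖z0 + 1‖ < 1 := by
    obtain ⟨z, hz⟩ := IsAlgClosed.exists_pow_nat_eq u (n := 13) (by norm_num)
    have hprod := IsPrimitiveRoot.pow_add_pow_eq_prod_add_mul z 1 (n := 13) (by decide) c.prim
    have hlt : ‖z ^ 13 + 1 ^ 13‖ < 1 := by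
      rw [hz, one_pow]
      exact hu.2
    rw [hprod, norm_prod] at hlt
    have hzn : ‖z‖ = 1 := norm_one_of_pow (n := 13) (by norm_num) (by rw [hz, hun])
    obtain ⟨η, hη, hη1⟩ : ∃ η ∈ Polynomial.nthRootsFinset 13 (1 : Ω), ‖z + η * 1‖ < 1 := by
      by_contra hcon
      push Not at hcon
      have : ∏ η ∈ Polynomial.nthRootsFinset 13 (1 : Ω), (1 : ℝ) ≤
          ∏ η ∈ Polynomial.nthRootsFinset 13 (1 : Ω), ‖z + η * 1‖ :=
        Finset.prod_le_prod (fun _ _ => zero_le_one) hcon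
      rw [Finset.prod_const_one] at this
      linarith
    have hη13 : η ^ 13 = 1 := by
      rwa [Polynomial.mem_nthRootsFinset (by norm_num)] at hη
    have hη0 : η ≠ 0 := by
      rintro rfl
      norm_num at hη13
    have hηn : ‖η‖ = 1 := norm_one_of_pow (n := 13) (by norm_num) (by rw [hη13, norm_one])
    refine ⟨η⁻¹ * z, by rw [mul_pow, inv_pow, hη13, inv_one, one_mul, hz], ?_⟩
    have e : η⁻¹ * z + 1 = η⁻¹ * (z + η * 1) := by
      rw [mul_add, mul_one, inv_mul_cancel₀ hη0]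
    rw [e, norm_mul, norm_inv, hηn, inv_one, one_mul]
    exact hη1
  have hz0n : ‖z0‖ = 1 := norm_one_of_pow (n := 13) (by norm_num) (by rw [hz0, hun])
  have hz00 : z0 ≠ 0 := by
    rintro rfl
    simp at hz0n
  -- the other roots
  have hother : ∀ l < 13, l ≠ 0 → ‖c.ζ ^ l * z0 - 1‖ = 1 ∧ ‖c.ζ ^ l * z0 + 1‖ = 1 := by
    intro l hl hl0
    have hnd : ¬ 13 ∣ l := fun hd => hl0 (Nat.eq_zero_of_dvd_of_lt hd hl)
    have hlt : ‖c.ζ ^ l * (z0 + 1)‖ < 1 := by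
      rw [norm_mul, norm_pow, hζ, one_pow, one_mul]
      exact hz01
    constructor
    · apply norm_eq_one_of_sub_lt (y := -(c.ζ ^ l + 1)) _ (by rw [norm_neg, h.zeta_add hnd])
      have e : c.ζ ^ l * z0 - 1 - -(c.ζ ^ l + 1) = c.ζ ^ l * (z0 + 1) := by ring
      rwa [e]
    · apply norm_eq_one_of_sub_lt (y := -(c.ζ ^ l - 1)) _ (by rw [norm_neg, h.zeta_sub hnd])
      have e : c.ζ ^ l * z0 + 1 - -(c.ζ ^ l - 1) = c.ζ ^ l * (z0 + 1) := by ring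
      rwa [e]
  have hfix0 : ∀ b ∈ B, b z0 = z0 := by
    intro b hb
    obtain ⟨l, hl, e⟩ := roots_eq c hz00 (z := b z0) (by rw [← map_pow, hz0, hu.1 b hb])
    by_cases hl0 : l = 0
    · rw [e, hl0, pow_zero, one_mul]
    · exfalso
      have h1 := (hother l hl hl0).2
      rw [← e, ← map_one b, ← map_add, h.isom b hb] at h1
      linarith
  refine ⟨z0, hz0, hz01, fun z hz b hb => ?_, fun z hz hne => ?_, fun i => ?_⟩
  · obtain ⟨l, -, rfl⟩ := roots_eq c hz00 (z := z) (by rw [hz, hz0])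
    rw [map_mul, map_pow, h.fζ b hb, hfix0 b hb]
  · obtain ⟨l, hl, rfl⟩ := roots_eq c hz00 (z := z) (by rw [hz, hz0])
    have hl0 : l ≠ 0 := by
      rintro rfl
      exact hne (by rw [pow_zero, one_mul])
    refine ⟨fun b hb => by rw [map_mul, map_pow, h.fζ b hb, hfix0 b hb], ?_, hother l hl hl0⟩
    rw [norm_mul, norm_pow, hζ, one_pow, one_mul, hz0n]
  · -- `u + ω^i = (z0 + ω^i) * unit`
    have hωi : ‖c.ω ^ i‖ = 1 := by rw [norm_pow, hω, one_pow]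
    have hωlt : ‖c.ω ^ i - 1‖ < 1 := by
      have := pow_congr hω.le (norm_one (α := Ω)).le (by rwa [norm_sub_rev]) i
      rwa [one_pow] at this
    have hX : ‖z0 - (-1)‖ < 1 := by rwa [sub_neg_eq_add]
    have hY : ‖-c.ω ^ i - (-1)‖ < 1 := by
      have e : -c.ω ^ i - (-1) = -(c.ω ^ i - 1) := by ring
      rwa [e, norm_neg]
    have hXn : ‖z0‖ ≤ 1 := hz0n.le
    have hYn : ‖-c.ω ^ i‖ ≤ 1 := by rw [norm_neg, hωi]
    have h1n : ‖(-1 : Ω)‖ ≤ 1 := by rw [norm_neg, norm_one]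
    have hgeom := geom_sum₂_mul z0 (-c.ω ^ i) 13
    have hsum : ‖(∑ k ∈ Finset.range 13, z0 ^ k * (-c.ω ^ i) ^ (13 - 1 - k)) - 13‖ < 1 := by
      have e : (∑ k ∈ Finset.range 13, z0 ^ k * (-c.ω ^ i) ^ (13 - 1 - k)) - 13 =
          ∑ k ∈ Finset.range 13, (z0 ^ k * (-c.ω ^ i) ^ (13 - 1 - k) - 1) := by
        rw [Finset.sum_sub_distrib]
        simp
      rw [e]
      refine Finset.sum_induction _ (fun x : Ω => ‖x‖ < 1) (fun x y hx hy => add_lt hx hy)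
        (by rw [norm_zero]; exact one_pos) (fun k hk => ?_)
      rw [Finset.mem_range] at hk
      have e1 := pow_congr hXn h1n hX k
      have e2 := pow_congr hYn h1n hY (13 - 1 - k)
      have e3 : z0 ^ k * (-c.ω ^ i) ^ (13 - 1 - k) - 1 =
          (z0 ^ k - (-1) ^ k) * (-c.ω ^ i) ^ (13 - 1 - k) +
            (-1) ^ k * ((-c.ω ^ i) ^ (13 - 1 - k) - (-1) ^ (13 - 1 - k)) := by
        have e4 : (-1 : Ω) ^ k * (-1) ^ (13 - 1 - k) = 1 := by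
          rw [← pow_add, Nat.add_sub_cancel' (by omega)]
          norm_num
        have key : ∀ p q X Y : Ω, p * q = 1 → X * Y - 1 = (X - p) * Y + p * (Y - q) :=
          fun p q X Y h => by linear_combination h
        exact key _ _ _ _ e4
      rw [e3]
      exact add_lt (mul_lt_one_left e1 (pow_le_one' hYn _))
        (mul_lt_one_right (pow_le_one' h1n k) e2)
    have hunit : ‖∑ k ∈ Finset.range 13, z0 ^ k * (-c.ω ^ i) ^ (13 - 1 - k)‖ = 1 :=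
      norm_eq_one_of_sub_lt hsum (thirteen_norm h3)
    have hω13 : (c.ω ^ i) ^ 13 = c.ω ^ i := by
      have e : (c.ω ^ i) ^ 13 = ((c.ω ^ 3) ^ 4) ^ i * c.ω ^ i := by ring
      rw [e, c.ω3L, one_pow, one_pow, one_mul]
    have e5 : (∑ k ∈ Finset.range 13, z0 ^ k * (-c.ω ^ i) ^ (13 - 1 - k)) * (z0 + c.ω ^ i) =
        u + c.ω ^ i := by
      rw [← sub_neg_eq_add z0, hgeom, hz0, neg_pow, hω13]
      norm_num
    have e6 := congrArg norm e5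
    rwa [norm_mul, hunit, one_mul] at e6

end

end Pool.Agent.Arb
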